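import Pool.Agent.Helper86.FS.StartGoals
import Pool.Agent.Helper67.AK.UR
import Pool.Agent.Helper60.AK.LZ

/-!
# Packet FS-START-QU: long lazy words are uniform on quadruples up to `n ^ (-10)`
-/

set_option autoImplicit false

namespace Pool.Agent.Helper94.FS

open Equiv Pool.Agent.Helper3.AK Pool.Agent.Helper67.AK Pool.Agent.Helper86.FS

theorem qu : QUStmt := by
  intro n k z ε J hk hn hε hε1 hgap hJ
  classical
  have hk1 : 1 ≤ k := hk
  have hLZ := Pool.Agent.Helper60.AK.LZ.lz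
  refine ⟨(hLZ n k 4 J z hk1).2.1, (hLZ n k 4 J z hk1).2.2, ?_⟩
  intro j hj a b
  have hAvg := (hLZ n k j J z hk1).1
  set N : ℕ := n.descFactorial j with hN
  have hcard : Fintype.card (Fin j ↪ Fin n) = N := by
    rw [Fintype.card_embedding_eq, Fintype.card_fin, Fintype.card_fin]
  have hNpos : 0 < N := by
    rw [hN]; exact Nat.descFactorial_pos.mpr (by omega)
  have hNR : (0 : ℝ) < N := by exact_mod_cast hNpos
  set δ : Fn n j := fun c => if c = b then 1 else 0 with hδ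
  set ψ : Fn n j := δ - (fun _ => (N : ℝ)⁻¹) with hψ
  have hψsum : ∑ c, ψ c = 0 := by
    have h1 : ∑ c, δ c = 1 := by
      rw [hδ]; simp
    rw [hψ]
    simp only [Pi.sub_apply]
    rw [Finset.sum_sub_distrib, h1, Finset.sum_const, Finset.card_univ, hcard, nsmul_eq_mul,
      mul_inv_cancel₀ hNR.ne', sub_self]
  have hψip : ip ψ ψ ≤ 1 := by
    have h1 : ip δ δ = 1 := by
      unfold ip
      rw [hδ]; simp
    have h2 : ip δ (fun _ => (N : ℝ)⁻¹) = (N : ℝ)⁻¹ := by
      unfold ip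
      rw [hδ]; simp
    have h3 : ip (fun _ => (N : ℝ)⁻¹ : Fn n j) (fun _ => (N : ℝ)⁻¹) = (N : ℝ)⁻¹ := by
      unfold ip
      rw [Finset.sum_const, Finset.card_univ, hcard, nsmul_eq_mul, ← mul_assoc,
        mul_inv_cancel₀ hNR.ne', one_mul]
    rw [hψ, ip_sub_left, ip_sub_right, ip_sub_right, ip_comm (fun _ => (N : ℝ)⁻¹) δ, h1, h2, h3]
    have : 0 < (N : ℝ)⁻¹ := inv_pos.mpr hNR
    linarith
  have hsum : pT (lazyLaw z J) a b = (Avg (lazyLaw z J) : Fn n j →ₗ[ℝ] Fn n j) δ a := by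
    unfold pT
    rw [Avg_apply, Finset.sum_filter]
    refine Finset.sum_congr rfl fun g _ => ?_
    have : (a.trans g.toEmbedding = b) ↔ (∀ i, g (a i) = b i) := by
      constructor
      · intro h i
        rw [← h]; rfl
      · intro h
        ext i
        exact congrArg Fin.val (h i)
    rw [hδ]
    simp only [this]
    split_ifs <;> simp
  rw [hsum, hAvg]
  have hdec : δ = ψ + (fun _ => (N : ℝ)⁻¹) := by rw [hψ]; simp
  have hval : (Lz z ^ J) δ a = (Lz z ^ J) ψ a + (N : ℝ)⁻¹ := by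
    conv_lhs => rw [hdec]
    rw [map_add, Lz_pow_const z hk1, Pi.add_apply]
  rw [hval]
  obtain ⟨-, hb⟩ := Lz_pow_bound z hk1 hε1 (hgap j hj) J ψ hψsum
  set v := (Lz z ^ J) ψ with hv
  have hc0 : 0 ≤ (1 - ε / 2) ^ J := pow_nonneg (by linarith) J
  have h1 : v a ^ 2 ≤ ip v v := by
    unfold ip
    have := Finset.single_le_sum (f := fun c => v c * v c) (fun c _ => mul_self_nonneg _)
      (Finset.mem_univ a)
    simpa [sq] using this
  have h2 : v a ^ 2 ≤ ((1 - ε / 2) ^ J) ^ 2 := by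
    refine h1.trans (hb.trans ?_)
    exact mul_le_of_le_one_right (sq_nonneg _) hψip
  have h3 : |v a| ≤ (1 - ε / 2) ^ J := abs_le.2 (abs_le_of_sq_le_sq' h2 hc0)
  have hn0 : (0 : ℝ) < n := by
    have : 0 < n := by omega
    exact_mod_cast this
  have h4 : (1 - ε / 2) ^ J ≤ 1 / (n : ℝ) ^ 10 := by
    have e1 : 1 - ε / 2 ≤ Real.exp (-(ε / 2)) := by
      have := Real.add_one_le_exp (-(ε / 2))
      linarith
    have e2 : (1 - ε / 2) ^ J ≤ Real.exp (-(ε / 2)) ^ J := pow_le_pow_left₀ (by linarith) e1 J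
    have e3 : Real.exp (-(ε / 2)) ^ J = Real.exp (-(ε / 2) * J) := by
      rw [← Real.exp_nat_mul, mul_comm]
    have e4 : (1 : ℝ) / (n : ℝ) ^ 10 = Real.exp (-(10 * Real.log n)) := by
      rw [Real.exp_neg, ← one_div]
      congr 1
      have : (10 : ℝ) * Real.log n = ((10 : ℕ) : ℝ) * Real.log n := by norm_num
      rw [this, Real.exp_nat_mul, Real.exp_log hn0]
    rw [e4]
    refine e2.trans ?_
    rw [e3, Real.exp_le_exp]
    have e5 : ε / 2 * (20 / ε * Real.log n) ≤ ε / 2 * J :=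
      mul_le_mul_of_nonneg_left hJ (by positivity)
    have e6 : ε / 2 * (20 / ε * Real.log n) = 10 * Real.log n := by
      field_simp
      ring
    linarith
  have h5 : v a + (N : ℝ)⁻¹ - 1 / (N : ℝ) = v a := by
    rw [one_div]
    ring
  rw [h5]
  exact h3.trans h4

end Pool.Agent.Helper94.FS
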